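import Pool.Agent.H200C.Stm3
import Pool.Agent.Q53.WR.Cor2

set_option autoImplicit false

/-! # Project CH, job COR2A -/

namespace Pool.Agent.Q153.CH

open Finset Pool.Agent.TH176.Nag Pool.Agent.TH603.Sur Pool.Agent.TH2.NU Pool.Agent.TH641.UM
open Pool.Agent.Y205.FW Pool.Agent.Y205.MD Pool.Agent.H200W Pool.Agent.H200P Pool.Agent.H200C
open Pool.Agent.Q53.WR

/-- **Job CH-COR2A.** -/
theorem cor2A : S_CorankA2 := by
  intro hC d μ K w hμ hwin hw hbig
  rcases le_or_gt (2 ^ 28 * w.toFinset.card * μ ^ 2) ((w.map fun v => v ^ 2).sum) with hs | hs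
  · exact hC K w hμ hwin hw hs
  obtain ⟨r, hr⟩ : ∃ r, r = w.toFinset.card := ⟨_, rfl⟩
  rw [← hr] at hs hbig
  obtain ⟨D, hD⟩ : ∃ D, D = 2 ^ 28 * (r + 1) * μ ^ 2 - (w.map fun v => v ^ 2).sum := ⟨_, rfl⟩
  obtain ⟨k, hk⟩ : ∃ k, k = D / μ ^ 2 + 1 := ⟨_, rfl⟩
  have hμ2 : 0 < μ ^ 2 := by positivity
  have hr1 : 2 ^ 28 * (r + 1) * μ ^ 2 = 2 ^ 28 * r * μ ^ 2 + 2 ^ 28 * μ ^ 2 := by ring
  have hk1 : D ≤ k * μ ^ 2 := by
    have h1 := Nat.div_add_mod D (μ ^ 2)
    have h2 : D % μ ^ 2 < μ ^ 2 := Nat.mod_lt D hμ2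
    have h3 : k * μ ^ 2 = μ ^ 2 * (D / μ ^ 2) + μ ^ 2 := by rw [hk]; ring
    rw [h3]
    exact (h1.symm.le).trans (Nat.add_le_add_left h2.le _)
  have hk2 : k * μ ^ 2 ≤ D + μ ^ 2 := by
    have h1 : μ ^ 2 * (D / μ ^ 2) ≤ D := Nat.mul_div_le D (μ ^ 2)
    have h3 : k * μ ^ 2 = μ ^ 2 * (D / μ ^ 2) + μ ^ 2 := by rw [hk]; ring
    rw [h3]
    exact Nat.add_le_add_right h1 _
  have htf : (w + Multiset.replicate k μ).toFinset.card ≤ r + 1 := by
    have h1 : (w + Multiset.replicate k μ).toFinset ⊆ insert μ w.toFinset := by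
      intro a
      simp only [Multiset.mem_toFinset, Multiset.mem_add, Multiset.mem_replicate,
        Finset.mem_insert]
      rintro (h | ⟨_, rfl⟩)
      · exact Or.inr h
      · exact Or.inl rfl
    refine (Finset.card_le_card h1).trans ?_
    rw [hr]
    exact Finset.card_insert_le _ _
  have hsum : ((w + Multiset.replicate k μ).map fun v => v ^ 2).sum =
      (w.map fun v => v ^ 2).sum + k * μ ^ 2 := by
    rw [Multiset.map_add, Multiset.sum_add, Multiset.map_replicate, Multiset.sum_replicate,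
      smul_eq_mul]
  have hq : 2 ^ 28 * (w + Multiset.replicate k μ).toFinset.card * μ ^ 2 ≤
      2 ^ 28 * (r + 1) * μ ^ 2 := Nat.mul_le_mul_right _ (Nat.mul_le_mul_left _ htf)
  have h1 := hC K (w + Multiset.replicate k μ) hμ hwin (by
    intro v hv
    rw [Multiset.mem_add, Multiset.mem_replicate] at hv
    rcases hv with hv | ⟨_, rfl⟩
    · exact hw v hv
    · exact ⟨hμ, le_refl _⟩) (by rw [hsum]; omega)
  have h2 : TH2.NU.condM (K + (w + Multiset.replicate k μ)) ≤ (HX 0 0 0 d).card := by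
    rw [condM_add K]
    have h3 := condM_le (w + Multiset.replicate k μ)
    rw [hsum] at h3
    have h5 : 2 ^ 29 * (r + 1) * μ ^ 2 = 2 ^ 28 * (r + 1) * μ ^ 2 + (2 ^ 28 * r * μ ^ 2 +
      (2 ^ 28 - 1) * μ ^ 2 + μ ^ 2) := by ring
    omega
  obtain ⟨T, t1, t2, t3⟩ := crk_spec (HX 0 0 0 d) (vec (K + (w + Multiset.replicate k μ)))
  have h3 : TH2.NU.condM (K + (w + Multiset.replicate k μ)) ≤ T.card := by
    unfold crkM at h1
    omega
  obtain ⟨T0, s1, s2⟩ := Finset.exists_subset_card_eq h3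
  have h4 : SurM (K + (w + Multiset.replicate k μ)) (↑(HX 0 0 0 d) : Set (ℤ × ℤ)) :=
    ⟨T0, by exact_mod_cast s1.trans t1, by rw [s2]; exact (cond_vec _).symm,
      t3.mono (by exact_mod_cast s1)⟩
  have h5 : Sur (vec (K + w)) (↑(HX 0 0 0 d) : Set (ℤ × ℤ)) := by
    apply sur_drop (w := fun _ : Fin k => μ)
    refine (SurM_iff ?_ _).1 h4
    rw [ms_sum, ms_fin, Multiset.nsmul_singleton, ← add_assoc]
    congr 1
    exact ms_toList (K + w)
  have h6 := crk_of_Sur h5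
  rw [cond_vec] at h6
  unfold crkM
  omega

end Pool.Agent.Q153.CH
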